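import Mathlib

/-!
Definitions for deformations of unital algebras and universal deformation formulas.

`k` is a field and `R` is a complete local Noetherian `k`-algebra with residue field `k`
(the completeness, Noetherian and residue field assumptions are stated where they are used).
-/

set_option autoImplicit false

open scoped TensorProduct
open IsLocalRing

namespace Pool.Agent.Lib.MP_8ccf7f_al

section Tensor

variable (k : Type*) [Field k] (R : Type*) [CommRing R] [Algebra k R] [IsLocalRing R]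

/-- The completed tensor product `V ⊗̂ R` over `k`: the completion of `R ⊗ V` with respect to the
maximal ideal `I` of `R`. -/
def CT (V : Type*) [AddCommGroup V] [Module k V] : Type _ :=
  AdicCompletion (maximalIdeal R) (R ⊗[k] V)

variable {V W : Type*} [AddCommGroup V] [Module k V] [AddCommGroup W] [Module k W]

noncomputable instance instAddCommGroupCT : AddCommGroup (CT k R V) :=
  AdicCompletion.instAddCommGroup (maximalIdeal R) (R ⊗[k] V)

noncomputable instance instModuleCT : Module R (CT k R V) :=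
  AdicCompletion.instModuleOfIsScalarTower (maximalIdeal R) (R ⊗[k] V)

/-- The canonical map `V → V ⊗̂ R`, `v ↦ v ⊗ 1`. -/
noncomputable def ι (v : V) : CT k R V :=
  AdicCompletion.of (maximalIdeal R) (R ⊗[k] V) (1 ⊗ₜ[k] v)

/-- The submodule `I (V ⊗̂ R)`, where `I` is the maximal ideal of `R`. -/
noncomputable def maxPart (V : Type*) [AddCommGroup V] [Module k V] : Submodule R (CT k R V) :=
  maximalIdeal R • ⊤

variable {k}

/-- The `R`-linear extension `V ⊗̂ R → W ⊗̂ R` of a `k`-linear map `V → W`. -/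
noncomputable def ct₁ (g : V →ₗ[k] W) : CT k R V →ₗ[R] CT k R W :=
  (AdicCompletion.map (maximalIdeal R) (g.baseChange R)).restrictScalars R

variable {R}

/-- Congruence modulo the maximal ideal of `R`. -/
def EqMod (x y : CT k R V) : Prop := x - y ∈ maxPart k R V

variable (k R)

/-- `R`-bilinear maps from `(V ⊗̂ R) × (V ⊗̂ R)` to `V ⊗̂ R`. -/
abbrev Bil (V : Type*) [AddCommGroup V] [Module k V] : Type _ :=
  CT k R V →ₗ[R] CT k R V →ₗ[R] CT k R V

variable {k R}

/-- The value `m(x, y)` of a bilinear map. -/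
noncomputable def app (m : Bil k R V) (x y : CT k R V) : CT k R V := m x y

/-- Two multiplications on `V ⊗̂ R` are equivalent if an `R`-linear automorphism that is the
identity modulo the maximal ideal carries one to the other. -/
def Equivalent (m₁ m₂ : Bil k R V) : Prop :=
  ∃ Φ : CT k R V ≃ₗ[R] CT k R V,
    (∀ x, EqMod (Φ x) x) ∧ ∀ x y, Φ (app m₁ x y) = app m₂ (Φ x) (Φ y)

end Tensor

variable (k : Type*) [Field k] (R : Type*) [CommRing R] [Algebra k R] [IsLocalRing R]

/-- An `R`-deformation of the unital associative `k`-algebra `A`: an `R`-bilinear, associative,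
unital multiplication on `A ⊗̂ R` that reduces to the multiplication of `A` modulo the maximal
ideal of `R`. -/
structure Deformation (A : Type*) [Ring A] [Algebra k A] where
  mul : Bil k R A
  assoc : ∀ x y z, app mul (app mul x y) z = app mul x (app mul y z)
  one_mul : ∀ x, app mul (ι k R (1 : A)) x = x
  mul_one : ∀ x, app mul x (ι k R (1 : A)) = x
  reduces : ∀ a b : A, EqMod (app mul (ι k R a) (ι k R b)) (ι k R (a * b))

/-- The map `B → A`, `b ↦ b • a`. -/
def act (B : Type*) [Ring B] [Algebra k B] {A : Type*} [Ring A]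
    [Algebra k A] [Module B A] [IsScalarTower k B A] (a : A) : B →ₗ[k] A :=
  (LinearMap.toSpanSingleton B A a).restrictScalars k

/-- For `a, a'` in a `B`-module `A`, the map `B ⊗ B → A`, `b ⊗ b' ↦ (b • a) * (b' • a')`. -/
noncomputable def twoAct (B : Type*) [Ring B] [Algebra k B] {A : Type*} [Ring A]
    [Algebra k A] [Module B A] [IsScalarTower k B A] (a a' : A) : B ⊗[k] B →ₗ[k] A :=
  LinearMap.mul' k A ∘ₗ TensorProduct.map (act k B a) (act k B a')

/-- `A` is a `B`-module algebra: the multiplication is `B`-linear, with `B` acting on `A ⊗ A`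
through the comultiplication, and `b • 1 = ε(b) 1`. -/
structure IsModuleAlgebra (B : Type*) [Ring B] [Bialgebra k B] (A : Type*) [Ring A]
    [Algebra k A] [Module B A] [IsScalarTower k B A] : Prop where
  smul_mul : ∀ (b : B) (a a' : A), b • (a * a') = twoAct k B a a' (Coalgebra.comul b)
  smul_one : ∀ b : B, b • (1 : A) = algebraMap k A (Coalgebra.counit b)

section Bialg

variable (B : Type*) [Ring B] [Bialgebra k B]

/-- `B ⊗ B → (B ⊗ B) ⊗ B`, `x ↦ (Δ ⊗ id) x`. -/
noncomputable def ΔL : B ⊗[k] B →ₗ[k] (B ⊗[k] B) ⊗[k] B :=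
  (Coalgebra.comul (R := k) (A := B)).rTensor B

/-- `B ⊗ B → (B ⊗ B) ⊗ B`, `x ↦ (id ⊗ Δ) x`. -/
noncomputable def ΔR : B ⊗[k] B →ₗ[k] (B ⊗[k] B) ⊗[k] B :=
  (TensorProduct.assoc k B B B).symm.toLinearMap ∘ₗ (Coalgebra.comul (R := k) (A := B)).lTensor B

/-- `B ⊗ B → (B ⊗ B) ⊗ B`, `x ↦ x ⊗ 1`. -/
noncomputable def oneR : B ⊗[k] B →ₗ[k] (B ⊗[k] B) ⊗[k] B :=
  (TensorProduct.mk k (B ⊗[k] B) B).flip 1

/-- `B ⊗ B → (B ⊗ B) ⊗ B`, `x ↦ 1 ⊗ x`. -/
noncomputable def oneL : B ⊗[k] B →ₗ[k] (B ⊗[k] B) ⊗[k] B :=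
  (TensorProduct.assoc k B B B).symm.toLinearMap ∘ₗ (TensorProduct.mk k B (B ⊗[k] B) 1)

/-- `B ⊗ B → B`, `x ↦ (ε ⊗ id) x`. -/
noncomputable def εL : B ⊗[k] B →ₗ[k] B :=
  (TensorProduct.lid k B).toLinearMap ∘ₗ (Coalgebra.counit (R := k) (A := B)).rTensor B

/-- `B ⊗ B → B`, `x ↦ (id ⊗ ε) x`. -/
noncomputable def εR : B ⊗[k] B →ₗ[k] B :=
  (TensorProduct.rid k B).toLinearMap ∘ₗ (Coalgebra.counit (R := k) (A := B)).lTensor B

end Bialg

/-- `m` is the `R`-bilinear extension to `C ⊗̂ R` of the multiplication of the `k`-algebra `C`.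
It exists and is unique: see `exists_isMulExt` and `IsMulExt.unique` in the file `Proof`. -/
def IsMulExt (C : Type*) [Ring C] [Algebra k C] (m : Bil k R C) : Prop :=
  ∀ x y : C, app m (ι k R x) (ι k R y) = ι k R (x * y)

/-- The twist equation `[(Δ ⊗ id) F] (F ⊗ 1) = [(id ⊗ Δ) F] (1 ⊗ F)` in `(B ⊗ B ⊗ B) ⊗̂ R`;
`m` is the product of `(B ⊗ B ⊗ B) ⊗̂ R`. -/
def IsTwist (B : Type*) [Ring B] [Bialgebra k B] (F : CT k R (B ⊗[k] B)) : Prop :=
  ∀ m, IsMulExt k R ((B ⊗[k] B) ⊗[k] B) m →
    app m (ct₁ R (ΔL k B) F) (ct₁ R (oneR k B) F) = app m (ct₁ R (ΔR k B) F) (ct₁ R (oneL k B) F)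

/-- A universal deformation formula over `R` based on the bialgebra `B`: a twisting element `F`
of `B ⊗̂ R` with `F ≡ 1 ⊗ 1` modulo the maximal ideal. -/
structure IsUDF (B : Type*) [Ring B] [Bialgebra k B] (F : CT k R (B ⊗[k] B)) : Prop where
  twist : IsTwist k R B F
  counit_left : ct₁ R (εL k B) F = ι k R 1
  counit_right : ct₁ R (εR k B) F = ι k R 1
  reduces : EqMod F (ι k R 1)

/-- `m` is the multiplication `a * b = μ (F (a ⊗ b))` on `A ⊗̂ R`, extended `R`-bilinearly.
It exists and is unique: see `exists_isUDFMul` and `IsUDFMul.unique` in the file `Proof`. -/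
def IsUDFMul {B : Type*} [Ring B] [Algebra k B] {A : Type*} [Ring A] [Algebra k A]
    [Module B A] [IsScalarTower k B A] (F : CT k R (B ⊗[k] B)) (m : Bil k R A) : Prop :=
  ∀ a b : A, app m (ι k R a) (ι k R b) = ct₁ R (twoAct k B a b) F

/-- The deformation `D` of `A` is equivalent to one that comes from a universal deformation
formula, for some bialgebra `B` and some `B`-module algebra structure on `A`. -/
def ComesFromUDF.{w, u₁, u₂, u₃} {k : Type u₁} [Field k] {R : Type u₂} [CommRing R] [Algebra k R]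
    [IsLocalRing R] {A : Type u₃} [Ring A] [Algebra k A] (D : Deformation k R A) : Prop :=
  ∃ (B : Type w) (_ : Ring B) (_ : Bialgebra k B) (_ : Module B A) (_ : IsScalarTower k B A)
    (F : CT k R (B ⊗[k] B)) (m : Bil k R A),
    IsModuleAlgebra k B A ∧ IsUDF k R B F ∧ IsUDFMul k R F m ∧ Equivalent D.mul m

end Pool.Agent.Lib.MP_8ccf7f_al
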