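import Pool.Agent.Lib.MP_8ccf7f_al.Proof

/-!
A finitely generated algebra with deformations that do not come from universal deformation
formulas: see `Pool/Agent/Results/MP_8ccf7f_al/Disproof.lean`.

The algebra is generated by `x, y, z` with relations `y xⁿ y = 0`, `x z = z x = y z = z y = z² = 0`.
-/

set_option autoImplicit false

open scoped TensorProduct Polynomial
open IsLocalRing

namespace Pool.Agent.Lib.MP_8ccf7f_al.FG

section General

/-- A bilinear map `m₁ : A × A → A` for which `a b + t m₁(a, b)` is an associative unital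
multiplication. -/
structure Coc {k : Type*} [Field k] {A : Type*} [Ring A] [Algebra k A]
    (m₁ : A →ₗ[k] A →ₗ[k] A) : Prop where
  left : ∀ a b c, m₁ (m₁ a b) c = 0
  right : ∀ a b c, m₁ a (m₁ b c) = 0
  cocycle : ∀ a b c, m₁ (a * b) c + m₁ a b * c = m₁ a (b * c) + a * m₁ b c
  one_left : ∀ a, m₁ 1 a = 0
  one_right : ∀ a, m₁ a 1 = 0

variable {k : Type*} [Field k] (R : Type*) [CommRing R] [Algebra k R]
  {A : Type*} [Ring A] [Algebra k A] (m₁ : A →ₗ[k] A →ₗ[k] A)

/-- The deformed multiplication on `R ⊗ A`. -/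
noncomputable def gmul (t : R) : (R ⊗[k] A) →ₗ[R] (R ⊗[k] A) →ₗ[R] (R ⊗[k] A) :=
  bc₂ R (LinearMap.mul k A) + t • bc₂ R m₁

lemma gmul_tmul (t : R) (r s : R) (a b : A) :
    gmul R m₁ t (r ⊗ₜ a) (s ⊗ₜ b) = (r * s) ⊗ₜ (a * b) + (t * (r * s)) ⊗ₜ m₁ a b := by
  rw [gmul, LinearMap.add_apply, LinearMap.add_apply, LinearMap.smul_apply, LinearMap.smul_apply,
    bc₂_tmul, bc₂_tmul, TensorProduct.smul_tmul', smul_eq_mul]
  rfl

variable {m₁} (h : Coc m₁)

include h

lemma gmul_assoc (t : R) (x y z : R ⊗[k] A) :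
    gmul R m₁ t (gmul R m₁ t x y) z = gmul R m₁ t x (gmul R m₁ t y z) := by
  induction x with
  | zero => simp
  | add a b ha hb => simp only [map_add, LinearMap.add_apply, ha, hb]
  | tmul r a =>
    induction y with
    | zero => simp
    | add a b ha hb => simp only [map_add, LinearMap.add_apply, ha, hb]
    | tmul s b =>
      induction z with
      | zero => simp
      | add a b ha hb => simp only [map_add, ha, hb]
      | tmul q c =>
        have hc := h.cocycle a b c
        simp only [gmul_tmul, map_add, LinearMap.add_apply, h.left, h.right,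
          TensorProduct.tmul_zero, add_zero]
        rw [show t * (r * s) * q = t * (r * s * q) by ring,
          show r * (t * (s * q)) = t * (r * s * q) by ring,
          show t * (r * (s * q)) = t * (r * s * q) by ring,
          show r * (s * q) = r * s * q by ring, mul_assoc a b c, add_assoc, add_assoc,
          ← TensorProduct.tmul_add, ← TensorProduct.tmul_add, hc]

lemma gmul_one_left (t : R) (x : R ⊗[k] A) : gmul R m₁ t (1 ⊗ₜ 1) x = x := by
  induction x with
  | zero => simp
  | add a b ha hb => rw [map_add, ha, hb]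
  | tmul r a => rw [gmul_tmul, one_mul, one_mul, h.one_left, TensorProduct.tmul_zero, add_zero]

lemma gmul_one_right (t : R) (x : R ⊗[k] A) : gmul R m₁ t x (1 ⊗ₜ 1) = x := by
  induction x with
  | zero => simp
  | add a b ha hb => rw [map_add, LinearMap.add_apply, ha, hb]
  | tmul r a => rw [gmul_tmul, mul_one, mul_one, h.one_right, TensorProduct.tmul_zero, add_zero]

variable [IsLocalRing R]

/-- The deformation `a * b = a b + t m₁(a, b)`. -/
noncomputable def gdef (t : R) (ht : t ∈ maximalIdeal R) : Deformation k R A where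
  mul := xt₂ (gmul R m₁ t)
  assoc := ext₂_assoc _ _ (gmul_assoc R h t)
  one_mul := ext₂_one_left _ _ _ (gmul_one_left R h t)
  mul_one := ext₂_one_right _ _ _ (gmul_one_right R h t)
  reduces := fun a b => by
    change xt₂ (gmul R m₁ t) (ι k R a) (ι k R b) - _ ∈ _
    rw [ι_eq, ι_eq, xt₂_ofCT, gmul_tmul, map_add, mul_one, mul_one, ι_eq, add_sub_cancel_left,
      ofCT_tmul]
    exact Submodule.smul_mem_smul ht trivial

lemma gdef_ι (t : R) (ht : t ∈ maximalIdeal R) (a b : A) :
    app (gdef R h t ht).mul (ι k R a) (ι k R b) = ι k R (a * b) + t • ι k R (m₁ a b) := by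
  change xt₂ (gmul R m₁ t) (ι k R a) (ι k R b) = _
  rw [ι_eq, ι_eq, xt₂_ofCT, gmul_tmul, map_add, mul_one, mul_one, ofCT_tmul, ofCT_tmul, one_smul]

end General

section Example

variable (k : Type*) [Field k]

/-- The square-zero ideal `k[x] y k[x] ⊕ k z` of the example. A polynomial in two variables is
regarded as a polynomial `∑ pᵢ(v) uⁱ` in `u` with coefficients in `k[v]`; here `uᵃ vᵇ` stands for
`xᵃ y xᵇ`. -/
abbrev E : Type _ := k[X][X] × k

/-- The left action of `k[x]`. -/
noncomputable def lam : k[X] →ₐ[k] E k :=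
  AlgHom.prod (Polynomial.mapAlgHom (Algebra.ofId k k[X])) (Polynomial.aeval 0)

/-- The right action of `k[x]`. -/
noncomputable def rho : k[X] →ₐ[k] E k :=
  AlgHom.prod (IsScalarTower.toAlgHom k k[X] k[X][X]) (Polynomial.aeval 0)

/-- The bimodule `k[x] y k[x] ⊕ k z` over `k[x]`. -/
def M : Type _ := E k

noncomputable instance : AddCommGroup (M k) := inferInstanceAs (AddCommGroup (E k))

noncomputable instance : Module k (M k) := inferInstanceAs (Module k (E k))

noncomputable instance : Module k[X] (M k) := Module.compHom (E k) (lam k).toRingHom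

noncomputable instance : Module k[X]ᵐᵒᵖ (M k) :=
  Module.compHom (E k) ((rho k).toRingHom.comp (RingEquiv.toOpposite k[X]).symm.toRingHom)

/-- `M k` is `E k` as a vector space. -/
noncomputable def toE : M k ≃ₗ[k] E k := LinearEquiv.refl k (E k)

variable {k}

lemma toE_smul (p : k[X]) (m : M k) : toE k (p • m) = lam k p * toE k m := rfl

lemma toE_op_smul (p : k[X]) (m : M k) : toE k (MulOpposite.op p • m) = rho k p * toE k m := rfl

instance : SMulCommClass k[X] k[X]ᵐᵒᵖ (M k) := ⟨fun p q m => (toE k).injective <| by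
  induction q using MulOpposite.rec' with
  | h q => rw [toE_smul, toE_op_smul, toE_op_smul, toE_smul, mul_left_comm]⟩

instance : IsScalarTower k k[X] (M k) := ⟨fun c p m => (toE k).injective <| by
  rw [toE_smul, map_smul, map_smul, toE_smul, smul_mul_assoc]⟩

instance : IsScalarTower k k[X]ᵐᵒᵖ (M k) := ⟨fun c p m => (toE k).injective <| by
  induction p using MulOpposite.rec' with
  | h q => rw [← MulOpposite.op_smul, toE_op_smul, map_smul, map_smul, toE_op_smul,
      smul_mul_assoc]⟩

variable (k)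

/-- The algebra of the example. -/
abbrev Alg : Type _ := TrivSqZeroExt k[X] (M k)

noncomputable example : Ring (Alg k) := inferInstance

noncomputable example : Algebra k (Alg k) := inferInstance

/-- The functional on `k[x]` with value `1` at `x ^ 2 ^ s` and `0` at the other powers of `x`. -/
noncomputable def Λ : k[X] →ₗ[k] k :=
  Polynomial.lsum fun n => by
    classical
    exact if ∃ s : ℕ, n = 2 ^ s then LinearMap.id else 0

/-- The component of an element of the algebra in `M k`. -/
noncomputable def sn : Alg k →ₗ[k] E k where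
  toFun a := toE k a.snd
  map_add' _ _ := rfl
  map_smul' _ _ := rfl

/-- The embedding of `M k` into the algebra. -/
noncomputable def inn : E k →ₗ[k] Alg k where
  toFun e := TrivSqZeroExt.inr ((toE k).symm e)
  map_add' e f := by rw [map_add, TrivSqZeroExt.inr_add]
  map_smul' c e := by rw [map_smul, TrivSqZeroExt.inr_smul, RingHom.id_apply]

/-- The component of an element of the algebra in `k[x]`. -/
noncomputable def fs : Alg k →ₐ[k] k[X] := TrivSqZeroExt.fstHom k k[X] (M k)

variable {k} in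
@[simp] lemma sn_inn (e : E k) : sn k (inn k e) = e := rfl

variable {k} in
@[simp] lemma fs_inn (e : E k) : fs k (inn k e) = 0 := rfl

variable {k} in
lemma sn_mul (a b : Alg k) : sn k (a * b) = lam k (fs k a) * sn k b + rho k (fs k b) * sn k a := by
  change toE k (a * b).snd = _
  rw [TrivSqZeroExt.snd_mul, map_add, toE_smul, toE_op_smul]
  rfl

variable {k} in
lemma ext' {a b : Alg k} (h1 : fs k a = fs k b) (h2 : sn k a = sn k b) : a = b :=
  TrivSqZeroExt.ext h1 h2

@[simp] lemma fs_one : fs k 1 = 1 := rfl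

@[simp] lemma sn_one : sn k 1 = 0 := rfl

/-- The coefficient of `z`. -/
noncomputable def ζ : Alg k →ₗ[k] k := LinearMap.snd k _ _ ∘ₗ sn k

/-- The value at `0` of the component in `k[x]`. -/
noncomputable def ε : Alg k →ₐ[k] k := (Polynomial.aeval (0 : k)).comp (fs k)

/-- The component in `k[x] y k[x]`. -/
noncomputable def η : Alg k →ₗ[k] k[X][X] := LinearMap.fst k _ _ ∘ₗ sn k

/-- `u = 0`. -/
noncomputable def u0 : k[X][X] →ₗ[k] k[X] := (Polynomial.lcoeff k[X] 0).restrictScalars k

/-- `v = 0`. -/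
noncomputable def v0 : k[X][X] →ₗ[k] k[X] :=
  (Polynomial.mapAlgHom (Polynomial.aeval (R := k) (0 : k))).toLinearMap

/-- The form `β`: it vanishes on `k[x]` and `z`, and
`β(xᵃ y xᵇ, xᶜ y xᵈ)` is `0` unless `a = d = 0`, in which case it is `Λ(x^(b+c))`. -/
noncomputable def β : Alg k →ₗ[k] Alg k →ₗ[k] k :=
  LinearMap.mk₂ k (fun a b => Λ k (u0 k (η k a) * v0 k (η k b)))
    (fun a a' b => by simp [add_mul])
    (fun c a b => by simp)
    (fun a b b' => by simp [mul_add])
    (fun c a b => by simp)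

variable {k}

lemma β_apply (a b : Alg k) : β k a b = Λ k (u0 k (η k a) * v0 k (η k b)) := rfl

lemma ζ_mul (a b : Alg k) : ζ k (a * b) = ε k a * ζ k b + ε k b * ζ k a := by
  change (sn k (a * b)).2 = _
  rw [sn_mul]
  rfl

lemma ε_eq (a : Alg k) : ε k a = (fs k a).coeff 0 := by
  change Polynomial.aeval (0 : k) (fs k a) = _
  rw [Polynomial.coeff_zero_eq_aeval_zero]

lemma u0_apply (m : k[X][X]) : u0 k m = m.coeff 0 := rfl

lemma v0_apply (m : k[X][X]) : v0 k m = m.map (Polynomial.aeval (R := k) (0 : k)).toRingHom := rfl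

lemma u0_η_mul (a b : Alg k) :
    u0 k (η k (a * b)) = Polynomial.C (ε k a) * u0 k (η k b) + fs k b * u0 k (η k a) := by
  have h : η k (a * b) = (fs k a).map (algebraMap k k[X]) * η k b +
      Polynomial.C (fs k b) * η k a := by
    change (sn k (a * b)).1 = _
    rw [sn_mul]
    rfl
  rw [h, u0_apply, u0_apply, u0_apply, Polynomial.coeff_add, Polynomial.mul_coeff_zero,
    Polynomial.mul_coeff_zero, Polynomial.coeff_map, Polynomial.coeff_C_zero, ε_eq]
  rfl

lemma v0_η_mul (a b : Alg k) :
    v0 k (η k (a * b)) = fs k a * v0 k (η k b) + Polynomial.C (ε k b) * v0 k (η k a) := by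
  have h : η k (a * b) = (fs k a).map (algebraMap k k[X]) * η k b +
      Polynomial.C (fs k b) * η k a := by
    change (sn k (a * b)).1 = _
    rw [sn_mul]
    rfl
  rw [h, v0_apply, v0_apply, v0_apply, Polynomial.map_add, Polynomial.map_mul, Polynomial.map_mul,
    Polynomial.map_map, Polynomial.map_C]
  congr 2
  have : ((Polynomial.aeval (R := k) (0 : k)).toRingHom.comp (algebraMap k k[X])) =
      RingHom.id k := by
    ext x
    simp
  rw [this, Polynomial.map_id]

variable (k) in
/-- The first order term of the deformation. -/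
noncomputable def m₁ : Alg k →ₗ[k] Alg k →ₗ[k] Alg k :=
  (β k).compr₂ (inn k ∘ₗ LinearMap.inr k k[X][X] k)

lemma m₁_apply (a b : Alg k) : m₁ k a b = inn k (0, β k a b) := rfl

lemma η_m₁ (a b : Alg k) : η k (m₁ k a b) = 0 := rfl

lemma ζ_m₁ (a b : Alg k) : ζ k (m₁ k a b) = β k a b := rfl

lemma coc : Coc (m₁ k) where
  left a b c := by
    rw [m₁_apply (m₁ k a b), β_apply, η_m₁, map_zero, zero_mul, map_zero]
    exact map_zero (inn k)
  right a b c := by
    rw [m₁_apply a (m₁ k b c), β_apply, η_m₁, map_zero, mul_zero, map_zero]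
    exact map_zero (inn k)
  one_left a := by
    have : η k (1 : Alg k) = 0 := rfl
    rw [m₁_apply, β_apply, this, map_zero, zero_mul, map_zero]
    exact map_zero (inn k)
  one_right a := by
    have : η k (1 : Alg k) = 0 := rfl
    rw [m₁_apply, β_apply, this, map_zero, mul_zero, map_zero]
    exact map_zero (inn k)
  cocycle a b c := by
    have hΛ : ∀ (e : k) (p : k[X]), e * Λ k p = Λ k (Polynomial.C e * p) := by
      intro e p
      rw [← smul_eq_mul, ← map_smul, Polynomial.smul_eq_C_mul]
    have hβ : β k (a * b) c + ε k c * β k a b = β k a (b * c) + ε k a * β k b c := by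
      rw [β_apply, β_apply, β_apply, β_apply, u0_η_mul, v0_η_mul, hΛ, hΛ, ← map_add, ← map_add]
      congr 1
      ring
    apply ext'
    · rw [map_add, map_add, map_mul (fs k), map_mul (fs k)]
      simp only [m₁_apply, fs_inn, mul_zero, zero_mul]
    · rw [map_add, map_add, sn_mul, sn_mul]
      simp only [m₁_apply, fs_inn, sn_inn, map_zero, zero_mul, add_zero, zero_add]
      apply Prod.ext
      · simp only [Prod.fst_add, Prod.fst_mul, mul_zero, add_zero]
      · exact hβ

variable (k) in
/-- `p ↦ y p(x)`. -/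
noncomputable def av₁ : k[X] →ₗ[k] Alg k :=
  inn k ∘ₗ LinearMap.inl k k[X][X] k ∘ₗ (IsScalarTower.toAlgHom k k[X] k[X][X]).toLinearMap

variable (k) in
/-- `q ↦ q(x) y`. -/
noncomputable def av₂ : k[X] →ₗ[k] Alg k :=
  inn k ∘ₗ LinearMap.inl k k[X][X] k ∘ₗ (Polynomial.mapAlgHom (Algebra.ofId k k[X])).toLinearMap

lemma av₁_mul_av₂ (p q : k[X]) : av₁ k p * av₂ k q = 0 := by
  change TrivSqZeroExt.inr _ * TrivSqZeroExt.inr _ = _
  rw [TrivSqZeroExt.inr_mul_inr]

lemma ζ_av₁_mul (p : k[X]) (a : Alg k) : ζ k (av₁ k p * a) = 0 := by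
  have h1 : ε k (av₁ k p) = 0 := map_zero (Polynomial.aeval (0 : k))
  have h2 : ζ k (av₁ k p) = 0 := rfl
  rw [ζ_mul, h1, h2, zero_mul, mul_zero, add_zero]

lemma ζ_mul_av₂ (q : k[X]) (a : Alg k) : ζ k (a * av₂ k q) = 0 := by
  have h1 : ε k (av₂ k q) = 0 := map_zero (Polynomial.aeval (0 : k))
  have h2 : ζ k (av₂ k q) = 0 := rfl
  rw [ζ_mul, h1, h2, zero_mul, mul_zero, add_zero]

lemma β_av (p q : k[X]) : β k (av₁ k p) (av₂ k q) = Λ k (p * q) := by
  have h1 : u0 k (η k (av₁ k p)) = p := Polynomial.coeff_C_zero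
  have h2 : v0 k (η k (av₂ k q)) = q := by
    change (q.map (algebraMap k k[X])).map (Polynomial.aeval (R := k) (0 : k)).toRingHom = q
    rw [Polynomial.map_map]
    have : ((Polynomial.aeval (R := k) (0 : k)).toRingHom.comp (algebraMap k k[X])) =
        RingHom.id k := by
      ext x
      simp
    rw [this, Polynomial.map_id]
  rw [β_apply, h1, h2]

lemma Λ_pow (n : ℕ) [Decidable (∃ s : ℕ, n = 2 ^ s)] (c : k) :
    Λ k (Polynomial.monomial n c) = if ∃ s : ℕ, n = 2 ^ s then c else 0 := by
  rw [Λ, Polynomial.lsum_apply]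
  refine (Polynomial.sum_monomial_index _ _ (LinearMap.map_zero _)).trans ?_
  split_ifs <;> rfl

/-- For each nonzero `p` there is `q` with `Λ (p q) ≠ 0`. -/
lemma exists_Λ_ne (p : k[X]) (hp : p ≠ 0) : ∃ q : k[X], Λ k (p * q) ≠ 0 := by
  classical
  have hd : p.natDegree + 1 < 2 ^ (p.natDegree + 1) := Nat.lt_two_pow_self
  refine ⟨Polynomial.X ^ (2 ^ (p.natDegree + 2) - p.natDegree), ?_⟩
  have h2 : (2 : ℕ) ^ (p.natDegree + 2) = 2 ^ (p.natDegree + 1) + 2 ^ (p.natDegree + 1) := by
    rw [show p.natDegree + 2 = p.natDegree + 1 + 1 from rfl, pow_succ]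
    omega
  obtain ⟨N, hN⟩ : ∃ N, N = 2 ^ (p.natDegree + 2) - p.natDegree := ⟨_, rfl⟩
  rw [← hN]
  have key : Λ k (p * Polynomial.X ^ N) = p.leadingCoeff := by
    conv_lhs => rw [p.as_sum_range, Finset.sum_mul, map_sum]
    rw [Finset.sum_range_succ, Finset.sum_eq_zero, zero_add, Polynomial.monomial_mul_X_pow, Λ_pow,
      if_pos]
    · rfl
    · exact ⟨p.natDegree + 2, by omega⟩
    · intro i hi
      rw [Finset.mem_range] at hi
      rw [Polynomial.monomial_mul_X_pow, Λ_pow, if_neg]
      rintro ⟨s, hs⟩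
      have h3 : 2 ^ (p.natDegree + 1) < 2 ^ s := by omega
      have h4 : 2 ^ s < 2 ^ (p.natDegree + 2) := by omega
      rw [Nat.pow_lt_pow_iff_right (by norm_num)] at h3 h4
      omega
  rw [key]
  exact Polynomial.leadingCoeff_ne_zero.2 hp

end Example

section Rank

lemma finite_rank.{u, w} {k : Type u} [Field k] (B : Type w) [Ring B] [Algebra k B]
    [Module B (Alg k)] [IsScalarTower k B (Alg k)] (F : B ⊗[k] B) :
    ∃ (E : Type u) (_ : AddCommGroup E) (_ : Module k E) (_ : Module.Finite k E)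
      (L : k[X] →ₗ[k] E), ∀ p, L p = 0 → ∀ q,
        ζ k (LinearMap.mul' k (Alg k) (act₂ k B (Alg k) F (av₁ k p ⊗ₜ av₂ k q))) = 0 := by
  induction F with
  | zero => exact ⟨k, inferInstance, inferInstance, inferInstance, 0, by simp⟩
  | add F G hF hG =>
    obtain ⟨E, i1, i2, i3, L, hL⟩ := hF
    obtain ⟨E', i1', i2', i3', L', hL'⟩ := hG
    refine ⟨E × E', inferInstance, inferInstance, inferInstance, L.prod L', ?_⟩
    intro v hv w
    have h1 : L v = 0 := congrArg Prod.fst hv
    have h2 : L' v = 0 := congrArg Prod.snd hv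
    rw [map_add, LinearMap.add_apply, map_add, map_add, hL v h1 w, hL' v h2 w, add_zero]
  | tmul b c =>
    refine ⟨k × k, inferInstance, inferInstance, inferInstance,
      ((ε k).toLinearMap ∘ₗ (Algebra.lsmul k k (Alg k) b) ∘ₗ av₁ k).prod
        (ζ k ∘ₗ (Algebra.lsmul k k (Alg k) b) ∘ₗ av₁ k), ?_⟩
    intro v hv w
    have h1' : ε k (b • av₁ k v) = 0 := congrArg Prod.fst hv
    have h2' : ζ k (b • av₁ k v) = 0 := congrArg Prod.snd hv
    change ζ k ((b • av₁ k v) * (c • av₂ k w)) = 0
    rw [ζ_mul, h1', h2', zero_mul, mul_zero, add_zero]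

end Rank

section Generation

variable (k : Type*) [Field k]

/-- The generator `x`. -/
noncomputable def gx : Alg k := TrivSqZeroExt.inl Polynomial.X

/-- The generator `y`. -/
noncomputable def gy : Alg k := inn k (1, 0)

/-- The generator `z`. -/
noncomputable def gz : Alg k := inn k (0, 1)

variable {k} in
lemma inl_mem (p : k[X]) :
    (TrivSqZeroExt.inl p : Alg k) ∈ Algebra.adjoin k ({gx k, gy k, gz k} : Set (Alg k)) := by
  have h : (TrivSqZeroExt.inl p : Alg k) = Polynomial.aeval (gx k) p := by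
    have h1 : (TrivSqZeroExt.inlAlgHom k k[X] (M k)) = Polynomial.aeval (gx k) := by
      apply Polynomial.algHom_ext
      rw [Polynomial.aeval_X]
      rfl
    exact DFunLike.congr_fun h1 p
  rw [h]
  exact Algebra.adjoin_mono (by simp) (Polynomial.aeval_mem_adjoin_singleton k (gx k))

/-- The algebra is generated by three elements. -/
lemma adjoin_eq_top : Algebra.adjoin k ({gx k, gy k, gz k} : Set (Alg k)) = ⊤ := by
  rw [eq_top_iff]
  rintro a -
  have hy : gy k ∈ Algebra.adjoin k ({gx k, gy k, gz k} : Set (Alg k)) :=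
    Algebra.subset_adjoin (by simp)
  have hz : gz k ∈ Algebra.adjoin k ({gx k, gy k, gz k} : Set (Alg k)) :=
    Algebra.subset_adjoin (by simp)
  have h1 : ∀ m : k[X][X], inn k (m, 0) ∈
      Algebra.adjoin k ({gx k, gy k, gz k} : Set (Alg k)) := by
    intro m
    induction m using Polynomial.induction_on' with
    | add p q hp hq =>
      have : inn k (p + q, 0) = inn k (p, 0) + inn k (q, 0) := by
        rw [← map_add, Prod.mk_add_mk, add_zero]
      rw [this]
      exact add_mem hp hq
    | monomial n q =>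
      have : inn k (Polynomial.monomial n q, 0) =
          TrivSqZeroExt.inl (Polynomial.X ^ n) * gy k * TrivSqZeroExt.inl q := by
        apply ext'
        · rw [map_mul, map_mul]
          change (0 : k[X]) = _ * 0 * _
          rw [mul_zero, zero_mul]
        · rw [sn_mul, sn_mul]
          change (Polynomial.monomial n q, (0 : k)) = lam k _ * 0 +
            rho k q * (lam k (Polynomial.X ^ n) * (1, 0) + rho k 0 * 0)
          rw [mul_zero, mul_zero, add_zero, zero_add]
          apply Prod.ext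
          · change Polynomial.monomial n q = Polynomial.C q *
              ((Polynomial.X ^ n : k[X]).map (algebraMap k k[X]) * 1)
            rw [mul_one, Polynomial.map_pow, Polynomial.map_X, Polynomial.C_mul_X_pow_eq_monomial]
          · change (0 : k) = _ * (_ * 0)
            rw [mul_zero, mul_zero]
      rw [this]
      exact mul_mem (mul_mem (inl_mem _) hy) (inl_mem _)
  have h2 : ∀ c : k, inn k (0, c) ∈ Algebra.adjoin k ({gx k, gy k, gz k} : Set (Alg k)) := by
    intro c
    have : inn k (0, c) = c • gz k := by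
      rw [gz, ← map_smul, Prod.smul_mk, smul_zero, smul_eq_mul, mul_one]
    rw [this]
    exact Subalgebra.smul_mem _ hz c
  have h3 : a = TrivSqZeroExt.inl (fs k a) + (inn k ((sn k a).1, 0) + inn k (0, (sn k a).2)) := by
    apply ext'
    · rw [map_add, map_add, fs_inn, fs_inn, add_zero, add_zero]
      rfl
    · rw [map_add, map_add, sn_inn, sn_inn]
      have h4 : sn k (TrivSqZeroExt.inl (fs k a)) = 0 := rfl
      rw [h4, zero_add]
      exact Prod.ext (add_zero _).symm (zero_add _).symm
  rw [h3]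
  exact add_mem (inl_mem _) (add_mem (h1 _) (h2 _))

lemma finiteType : Algebra.FiniteType k (Alg k) := by
  refine ⟨⟨Set.Finite.toFinset (s := {gx k, gy k, gz k}) (by simp), ?_⟩⟩
  rw [Set.Finite.coe_toFinset, adjoin_eq_top]

end Generation

section Main

set_option maxHeartbeats 4000000 in
/-- The main result; see `Pool/Agent/Results/MP_8ccf7f_al/Disproof.lean`. -/
theorem main.{u, v, w} (k : Type u) [Field k] (R : Type v) [CommRing R] [Algebra k R]
    [IsLocalRing R] [IsNoetherianRing R] [IsAdicComplete (maximalIdeal R) R]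
    (hres : Function.Bijective (algebraMap k (ResidueField R))) (hR : maximalIdeal R ≠ ⊥) :
    ∃ D : Deformation k R (Alg k), ¬ ComesFromUDF.{w} D := by
  classical
  obtain ⟨ρ, ℓ, t, T⟩ := exists_tangent hres hR
  refine ⟨gdef R coc t T.t_mem, ?_⟩
  rintro ⟨B, iB, iBi, iM, iS, F, m, -, hF, hm, Φ, hΦ1, hΦ2⟩
  obtain rfl : m = udfMul k R (Alg k) F := hm.unique (isUDFMul_udfMul F)
  -- the first order equation
  have hρΦ : ∀ X, pr ρ (Φ X) = pr ρ X := fun X => T.pr_ρ_congr (hΦ1 X)
  obtain ⟨E, i1, i2, i3, L, hL⟩ := finite_rank B (pr ℓ F)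
  have hLinj : ¬ Function.Injective L := by
    intro hinj
    have : Module.Finite k k[X] := Module.Finite.of_injective L hinj
    exact Polynomial.not_finite this
  obtain ⟨p, hp, hp0⟩ : ∃ p, L p = 0 ∧ p ≠ 0 := by
    by_contra hcon
    push Not at hcon
    exact hLinj ((injective_iff_map_eq_zero L).2 hcon)
  obtain ⟨q, hq⟩ := exists_Λ_ne p hp0
  have key := congrArg (pr ℓ) (hΦ2 (ι k R (av₁ k p)) (ι k R (av₂ k q)))
  rw [gdef_ι, av₁_mul_av₂, map_add, map_smul, pr_add ℓ T.ℓ_sq, T.pr_smul_ℓ, T.ρ_max t T.t_mem,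
    T.ℓ_t, zero_smul, zero_add, one_smul, hρΦ, pr_ι ρ T.ρ_sq, T.ρ_one, one_smul] at key
  have hι0 : pr ℓ (Φ (ι k R (0 : Alg k))) = 0 := by
    have : ι k R (0 : Alg k) = 0 := by
      rw [ι_eq, TensorProduct.tmul_zero, map_zero]
    rw [this, map_zero]
    have h3 := pr_add ℓ T.ℓ_sq (0 : CT k R (Alg k)) 0
    rw [add_zero] at h3
    exact left_eq_add.1 h3
  rw [hι0, zero_add] at key
  rw [app, T.pr_udfMul F hF.reduces, hρΦ, hρΦ, pr_ι ρ T.ρ_sq, pr_ι ρ T.ρ_sq, T.ρ_one, one_smul,
    one_smul] at key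
  have key2 := congrArg (ζ k) key
  rw [map_add, map_add, hL p hp q, add_zero, ζ_av₁_mul, ζ_mul_av₂, add_zero, ζ_m₁, β_av] at key2
  exact hq key2

end Main

end Pool.Agent.Lib.MP_8ccf7f_al.FG
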