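import Pool.Agent.Lib.MP_8ccf7f_al.Defs

/-!
Proofs for the negative answer: see `Pool/Agent/Results/MP_8ccf7f_al/Disproof.lean`.
-/

set_option autoImplicit false

open scoped TensorProduct
open IsLocalRing

namespace Pool.Agent.Lib.MP_8ccf7f_al

section Completion

variable {R : Type*} [CommRing R]

section level
variable {M N P : Type*} [AddCommGroup M] [Module R M]
  [AddCommGroup N] [Module R N] [AddCommGroup P] [Module R P]

/-- A bilinear map reduced modulo an ideal. -/
noncomputable def level₂ (J : Ideal R) (f : M →ₗ[R] N →ₗ[R] P) :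
    (M ⧸ (J • ⊤ : Submodule R M)) →ₗ[R] (N ⧸ (J • ⊤ : Submodule R N)) →ₗ[R]
      (P ⧸ (J • ⊤ : Submodule R P)) :=
  Submodule.liftQ _
    { toFun := fun m => (f m).reduceModIdeal J
      map_add' := fun m m' => by
        ext n
        simp
      map_smul' := fun r m => by
        ext n
        simp }
    (by
      rw [Submodule.smul_le]
      intro r hr m _
      rw [LinearMap.mem_ker]
      ext n
      have h : (Submodule.Quotient.mk (f (r • m) n) : P ⧸ (J • ⊤ : Submodule R P)) = 0 := by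
        rw [Submodule.Quotient.mk_eq_zero, map_smul, LinearMap.smul_apply]
        exact Submodule.smul_mem_smul hr trivial
      exact h)

@[simp] lemma level₂_mk (J : Ideal R) (f : M →ₗ[R] N →ₗ[R] P) (m : M) (n : N) :
    level₂ J f (Submodule.Quotient.mk m) (Submodule.Quotient.mk n) =
      Submodule.Quotient.mk (f m n) := rfl

/-- The value of the extension of a bilinear map to completions. -/
noncomputable def ext₂Fun (I : Ideal R) (f : M →ₗ[R] N →ₗ[R] P)
    (x : AdicCompletion I M) (y : AdicCompletion I N) : AdicCompletion I P :=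
  ⟨fun n => level₂ (I ^ n) f (x.val n) (y.val n), by
      intro m n hmn
      have hx := AdicCompletion.transitionMap_comp_eval_apply I M hmn x
      have hy := AdicCompletion.transitionMap_comp_eval_apply I N hmn y
      change AdicCompletion.transitionMap I P hmn (level₂ (I ^ n) f (x.val n) (y.val n)) =
        level₂ (I ^ m) f (x.val m) (y.val m)
      rw [← hx, ← hy]
      generalize x.val n = a
      generalize y.val n = b
      obtain ⟨a, rfl⟩ := Submodule.Quotient.mk_surjective _ a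
      obtain ⟨b, rfl⟩ := Submodule.Quotient.mk_surjective _ b
      rfl⟩

lemma ext₂Fun_val (I : Ideal R) (f : M →ₗ[R] N →ₗ[R] P) (x : AdicCompletion I M)
    (y : AdicCompletion I N) (n : ℕ) :
    (ext₂Fun I f x y).val n = level₂ (I ^ n) f (x.val n) (y.val n) := rfl

/-- The extension of an `R`-bilinear map to the `I`-adic completions. -/
noncomputable def ext₂ (I : Ideal R) (f : M →ₗ[R] N →ₗ[R] P) :
    AdicCompletion I M →ₗ[R] AdicCompletion I N →ₗ[R] AdicCompletion I P :=
  LinearMap.mk₂ R (ext₂Fun I f)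
    (fun x x' y => by
      ext n
      rw [AdicCompletion.val_add_apply, ext₂Fun_val, ext₂Fun_val, ext₂Fun_val,
        AdicCompletion.val_add_apply, map_add, LinearMap.add_apply])
    (fun r x y => by
      ext n
      rw [AdicCompletion.val_smul_apply, ext₂Fun_val, ext₂Fun_val,
        AdicCompletion.val_smul_apply, map_smul, LinearMap.smul_apply])
    (fun x y y' => by
      ext n
      rw [AdicCompletion.val_add_apply, ext₂Fun_val, ext₂Fun_val, ext₂Fun_val,
        AdicCompletion.val_add_apply, map_add])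
    (fun r x y => by
      ext n
      rw [AdicCompletion.val_smul_apply, ext₂Fun_val, ext₂Fun_val,
        AdicCompletion.val_smul_apply, map_smul])

lemma ext₂_val (I : Ideal R) (f : M →ₗ[R] N →ₗ[R] P) (x : AdicCompletion I M)
    (y : AdicCompletion I N) (n : ℕ) :
    (ext₂ I f x y).val n = level₂ (I ^ n) f (x.val n) (y.val n) := rfl

lemma ext₂_of (I : Ideal R) (f : M →ₗ[R] N →ₗ[R] P) (x : M) (y : N) :
    ext₂ I f (AdicCompletion.of I M x) (AdicCompletion.of I N y) =
      AdicCompletion.of I P (f x y) := rfl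

end level

end Completion

section Lev

variable {k : Type*} [Field k] {R : Type*} [CommRing R] [Algebra k R] [IsLocalRing R]
variable {V W U : Type*} [AddCommGroup V] [Module k V] [AddCommGroup W] [Module k W]
  [AddCommGroup U] [Module k U]

/-- The image of an element of the completion modulo `I ^ n`. -/
noncomputable def lev (n : ℕ) : CT k R V →ₗ[R]
    ((R ⊗[k] V) ⧸ (maximalIdeal R ^ n • ⊤ : Submodule R (R ⊗[k] V))) :=
  AdicCompletion.eval (maximalIdeal R) (R ⊗[k] V) n

lemma ext_lev {X Y : CT k R V} (h : ∀ n, lev n X = lev n Y) : X = Y :=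
  AdicCompletion.ext h

lemma lev_ι (n : ℕ) (v : V) : lev n (ι k R v) = Submodule.Quotient.mk ((1 : R) ⊗ₜ[k] v) := rfl

lemma lev_ct₁ (n : ℕ) (g : V →ₗ[k] W) (X : CT k R V) (x : R ⊗[k] V)
    (hx : lev n X = Submodule.Quotient.mk x) :
    lev n (ct₁ R g X) = Submodule.Quotient.mk (g.baseChange R x) := by
  change (g.baseChange R).reduceModIdeal _ (lev n X) = _
  rw [hx]
  rfl

/-- The `R`-bilinear extension of a `k`-bilinear map to ordinary tensor products:
`(r ⊗ v, s ⊗ w) ↦ r s ⊗ g v w`. -/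
noncomputable def bc₂ (R : Type*) [CommRing R] [Algebra k R] (g : V →ₗ[k] W →ₗ[k] U) :
    (R ⊗[k] V) →ₗ[R] (R ⊗[k] W) →ₗ[R] (R ⊗[k] U) :=
  LinearMap.liftBaseChange R ((LinearMap.baseChangeHom k R W U).comp g)

omit [IsLocalRing R] in
lemma bc₂_tmul (g : V →ₗ[k] W →ₗ[k] U) (r s : R) (v : V) (w : W) :
    bc₂ R g (r ⊗ₜ v) (s ⊗ₜ w) = (r * s) ⊗ₜ g v w := by
  simp [bc₂, TensorProduct.smul_tmul']

/-- The `R`-bilinear extension to completed tensor products of an `R`-bilinear map. -/
noncomputable def xt₂ (f : (R ⊗[k] V) →ₗ[R] (R ⊗[k] W) →ₗ[R] (R ⊗[k] U)) :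
    CT k R V →ₗ[R] CT k R W →ₗ[R] CT k R U :=
  ext₂ (maximalIdeal R) f

lemma lev_xt₂ (n : ℕ) (f : (R ⊗[k] V) →ₗ[R] (R ⊗[k] W) →ₗ[R] (R ⊗[k] U))
    (X : CT k R V) (Y : CT k R W) (x : R ⊗[k] V) (y : R ⊗[k] W)
    (hx : lev n X = Submodule.Quotient.mk x) (hy : lev n Y = Submodule.Quotient.mk y) :
    lev n (xt₂ f X Y) = Submodule.Quotient.mk (f x y) := by
  change level₂ _ f (lev n X) (lev n Y) = _
  rw [hx, hy]
  rfl

/-- The map from the ordinary tensor product to the completed one. -/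
noncomputable def ofCT : (R ⊗[k] V) →ₗ[R] CT k R V :=
  AdicCompletion.of (maximalIdeal R) (R ⊗[k] V)

lemma lev_ofCT (n : ℕ) (x : R ⊗[k] V) : lev n (ofCT x) = Submodule.Quotient.mk x := rfl

lemma ι_eq (v : V) : ι k R v = ofCT ((1 : R) ⊗ₜ[k] v) := rfl

lemma ofCT_tmul (r : R) (v : V) : ofCT (r ⊗ₜ[k] v) = r • ι k R v := by
  rw [ι_eq, ← map_smul, TensorProduct.smul_tmul', smul_eq_mul, mul_one]

lemma xt₂_ofCT (f : (R ⊗[k] V) →ₗ[R] (R ⊗[k] W) →ₗ[R] (R ⊗[k] U)) (x : R ⊗[k] V)
    (y : R ⊗[k] W) : xt₂ f (ofCT x) (ofCT y) = ofCT (f x y) := rfl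

lemma exists_lev (n : ℕ) (X : CT k R V) :
    ∃ x : R ⊗[k] V, lev n X = Submodule.Quotient.mk x := by
  obtain ⟨x, hx⟩ := Submodule.Quotient.mk_surjective _ (lev n X)
  exact ⟨x, hx.symm⟩

end Lev

section Udf

variable (k : Type*) [Field k] (R : Type*) [CommRing R] [Algebra k R] [IsLocalRing R]

/-- The action of `B ⊗ B` on `A ⊗ A` for a `B`-module `A`. -/
noncomputable def act₂ (B : Type*) [Ring B] [Algebra k B] (A : Type*) [AddCommGroup A]
    [Module k A] [Module B A] [IsScalarTower k B A] :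
    (B ⊗[k] B) →ₗ[k] (A ⊗[k] A) →ₗ[k] (A ⊗[k] A) :=
  TensorProduct.map₂ (Algebra.lsmul k k A : B →ₐ[k] Module.End k A).toLinearMap
    (Algebra.lsmul k k A : B →ₐ[k] Module.End k A).toLinearMap

/-- The multiplication `a * b = μ (F (a ⊗ b))` on `A ⊗̂ R`, extended `R`-linearly. -/
noncomputable def udfMul {B : Type*} [Ring B] [Algebra k B] (A : Type*) [Ring A] [Algebra k A]
    [Module B A] [IsScalarTower k B A] (F : CT k R (B ⊗[k] B)) :
    CT k R A →ₗ[R] CT k R A →ₗ[R] CT k R A :=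
  (xt₂ (bc₂ R (TensorProduct.mk k A A))).compr₂
    (ct₁ R (LinearMap.mul' k A) ∘ₗ xt₂ (bc₂ R (act₂ k B A)) F)

variable {k R}

lemma twoAct_eq {B : Type*} [Ring B] [Algebra k B] {A : Type*} [Ring A] [Algebra k A]
    [Module B A] [IsScalarTower k B A] (a a' : A) (F : B ⊗[k] B) :
    twoAct k B a a' F = LinearMap.mul' k A (act₂ k B A F (a ⊗ₜ a')) := by
  induction F with
  | zero => simp
  | add F G hF hG => rw [map_add, hF, hG, map_add, LinearMap.add_apply, map_add]
  | tmul b c => rfl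

omit [IsLocalRing R] in
lemma twoAct_baseChange {B : Type*} [Ring B] [Algebra k B] {A : Type*} [Ring A] [Algebra k A]
    [Module B A] [IsScalarTower k B A] (a b : A) (x : R ⊗[k] (B ⊗[k] B)) :
    (LinearMap.mul' k A).baseChange R (bc₂ R (act₂ k B A) x (1 ⊗ₜ (a ⊗ₜ b))) =
      (twoAct k B a b).baseChange R x := by
  induction x with
  | zero => simp
  | add y z hy hz => rw [map_add, LinearMap.add_apply, map_add, hy, hz, map_add]
  | tmul r u => rw [bc₂_tmul, LinearMap.baseChange_tmul, LinearMap.baseChange_tmul, twoAct_eq,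
      mul_one]

lemma isUDFMul_udfMul {B : Type*} [Ring B] [Algebra k B] {A : Type*} [Ring A] [Algebra k A]
    [Module B A] [IsScalarTower k B A] (F : CT k R (B ⊗[k] B)) :
    IsUDFMul k R F (udfMul k R A F) := by
  intro a b
  apply ext_lev
  intro n
  obtain ⟨x, hx⟩ := exists_lev n F
  rw [lev_ct₁ n _ F x hx]
  have h1 := lev_xt₂ n (bc₂ R (TensorProduct.mk k A A)) _ _ _ _ (lev_ι (R := R) n a)
    (lev_ι (R := R) n b)
  have h2 := lev_xt₂ n (bc₂ R (act₂ k B A)) F _ _ _ hx h1
  have h3 := lev_ct₁ n (LinearMap.mul' k A) _ _ h2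
  refine Eq.trans h3 (congrArg _ ?_)
  rw [bc₂_tmul, TensorProduct.mk_apply, one_mul, twoAct_baseChange]

/-- Existence of the multiplication attached to `F`. -/
lemma exists_isUDFMul {B : Type*} [Ring B] [Algebra k B] {A : Type*} [Ring A] [Algebra k A]
    [Module B A] [IsScalarTower k B A] (F : CT k R (B ⊗[k] B)) :
    ∃ m : CT k R A →ₗ[R] CT k R A →ₗ[R] CT k R A, IsUDFMul k R F m :=
  ⟨_, isUDFMul_udfMul F⟩

/-- Existence of the extended multiplication. -/
lemma exists_isMulExt (C : Type*) [Ring C] [Algebra k C] :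
    ∃ m : CT k R C →ₗ[R] CT k R C →ₗ[R] CT k R C, IsMulExt k R C m := by
  refine ⟨xt₂ (bc₂ R (LinearMap.mul k C)), ?_⟩
  intro x y
  change xt₂ (bc₂ R (LinearMap.mul k C)) (ι k R x) (ι k R y) = _
  rw [ι_eq, ι_eq, xt₂_ofCT, bc₂_tmul, one_mul, ι_eq]
  rfl

variable {V W U : Type*} [AddCommGroup V] [Module k V] [AddCommGroup W] [Module k W]
  [AddCommGroup U] [Module k U]

lemma exists_approx [IsNoetherianRing R] (n : ℕ) (X : CT k R V) :
    ∃ x : R ⊗[k] V, X - ofCT x ∈ (maximalIdeal R ^ n • ⊤ : Submodule R (CT k R V)) := by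
  obtain ⟨x, hx⟩ := exists_lev n X
  refine ⟨x, ?_⟩
  have h := AdicCompletion.pow_smul_top_eq_ker_eval (M := R ⊗[k] V) (n := n)
    (IsNoetherian.noetherian (maximalIdeal R))
  have h0 : lev n (X - ofCT x) = 0 := by
    rw [map_sub, hx, lev_ofCT, sub_self]
  exact h.symm.le (LinearMap.mem_ker.2 h0)

lemma lev_pow_smul (n : ℕ) (X : CT k R V)
    (hX : X ∈ (maximalIdeal R ^ n • ⊤ : Submodule R (CT k R V))) : lev n X = 0 := by
  refine Submodule.smul_induction_on hX ?_ ?_
  · intro r hr Y _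
    obtain ⟨y, hy⟩ := exists_lev n Y
    rw [map_smul, hy]
    change Submodule.Quotient.mk (r • y) = _
    rw [Submodule.Quotient.mk_eq_zero]
    exact Submodule.smul_mem_smul hr trivial
  · intro a b ha hb
    rw [map_add, ha, hb, add_zero]

/-- An `R`-bilinear map on completed tensor products is determined by its values on the images
of `V` and `W`. -/
lemma bilin_unique [IsNoetherianRing R] (m m' : CT k R V →ₗ[R] CT k R W →ₗ[R] CT k R U)
    (h : ∀ v w, m (ι k R v) (ι k R w) = m' (ι k R v) (ι k R w)) : m = m' := by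
  have h1 : ∀ (x : R ⊗[k] V) (y : R ⊗[k] W), m (ofCT x) (ofCT y) = m' (ofCT x) (ofCT y) := by
    intro x y
    induction x with
    | zero => simp
    | add a b ha hb => simp only [map_add, LinearMap.add_apply, ha, hb]
    | tmul r v =>
      induction y with
      | zero => simp
      | add a b ha hb => simp only [map_add, ha, hb]
      | tmul s w => simp only [ofCT_tmul, map_smul, LinearMap.smul_apply, h]
  have h2 : ∀ (n : ℕ) (M : CT k R V →ₗ[R] CT k R W →ₗ[R] CT k R U) (X : CT k R V)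
      (Y : CT k R W) (x : R ⊗[k] V) (y : R ⊗[k] W),
      X - ofCT x ∈ (maximalIdeal R ^ n • ⊤ : Submodule R (CT k R V)) →
      Y - ofCT y ∈ (maximalIdeal R ^ n • ⊤ : Submodule R (CT k R W)) →
      lev n (M X Y) = lev n (M (ofCT x) (ofCT y)) := by
    intro n M X Y x y hX hY
    have e : M X Y = M (ofCT x) (ofCT y) + M (X - ofCT x) Y + M (ofCT x) (Y - ofCT y) := by
      simp only [map_sub, LinearMap.sub_apply]
      abel
    have e1 : M (X - ofCT x) Y ∈ (maximalIdeal R ^ n • ⊤ : Submodule R (CT k R U)) := by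
      have : M (X - ofCT x) Y = M.flip Y (X - ofCT x) := rfl
      rw [this]
      refine Submodule.smul_induction_on hX ?_ ?_
      · intro r hr Z _
        rw [map_smul]
        exact Submodule.smul_mem_smul hr trivial
      · intro a b ha hb
        rw [map_add]
        exact Submodule.add_mem _ ha hb
    have e2 : M (ofCT x) (Y - ofCT y) ∈ (maximalIdeal R ^ n • ⊤ : Submodule R (CT k R U)) := by
      refine Submodule.smul_induction_on hY ?_ ?_
      · intro r hr Z _
        rw [map_smul]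
        exact Submodule.smul_mem_smul hr trivial
      · intro a b ha hb
        rw [map_add]
        exact Submodule.add_mem _ ha hb
    rw [e, map_add, map_add, lev_pow_smul n _ e1, lev_pow_smul n _ e2, add_zero, add_zero]
  ext X Y
  apply ext_lev
  intro n
  obtain ⟨x, hx⟩ := exists_approx n X
  obtain ⟨y, hy⟩ := exists_approx n Y
  rw [h2 n m X Y x y hx hy, h2 n m' X Y x y hx hy, h1]

lemma IsMulExt.unique [IsNoetherianRing R] {C : Type*} [Ring C]
    [Algebra k C] {m m' : CT k R C →ₗ[R] CT k R C →ₗ[R] CT k R C} (h : IsMulExt k R C m)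
    (h' : IsMulExt k R C m') : m = m' :=
  bilin_unique m m' fun v w => (h v w).trans (h' v w).symm

lemma IsUDFMul.unique [IsNoetherianRing R] {B : Type*} [Ring B]
    [Algebra k B] {A : Type*} [Ring A] [Algebra k A] [Module B A] [IsScalarTower k B A]
    {F : CT k R (B ⊗[k] B)} {m m' : CT k R A →ₗ[R] CT k R A →ₗ[R] CT k R A}
    (h : IsUDFMul k R F m) (h' : IsUDFMul k R F m') : m = m' :=
  bilin_unique m m' fun v w => (h v w).trans (h' v w).symm

end Udf

section FirstOrder

variable {k : Type*} [Field k] {R : Type*} [CommRing R] [Algebra k R] [IsLocalRing R]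
variable {V W U : Type*} [AddCommGroup V] [Module k V] [AddCommGroup W] [Module k W]
  [AddCommGroup U] [Module k U]

/-- Apply a functional to the scalar factor. -/
noncomputable def red (f : R →ₗ[k] k) (V : Type*) [AddCommGroup V] [Module k V] :
    (R ⊗[k] V) →ₗ[k] V :=
  (TensorProduct.lid k V).toLinearMap ∘ₗ f.rTensor V

omit [IsLocalRing R] in
@[simp] lemma red_tmul (f : R →ₗ[k] k) (r : R) (v : V) : red f V (r ⊗ₜ v) = f r • v := by
  simp [red]

/-- Choose a representative modulo the square of the maximal ideal and apply `red`. -/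
noncomputable def pr (f : R →ₗ[k] k) (X : CT k R V) : V :=
  red f V (exists_lev 2 X).choose

lemma red_eq_zero (f : R →ₗ[k] k) (hf : ∀ r ∈ maximalIdeal R ^ 2, f r = 0) (x : R ⊗[k] V)
    (hx : x ∈ (maximalIdeal R ^ 2 • ⊤ : Submodule R (R ⊗[k] V))) : red f V x = 0 := by
  refine Submodule.smul_induction_on hx ?_ ?_
  · intro r hr y _
    induction y with
    | zero => simp
    | add a b ha hb => rw [smul_add, map_add, ha trivial, hb trivial, add_zero]
    | tmul s v =>
      rw [TensorProduct.smul_tmul', red_tmul, smul_eq_mul, hf _ (Ideal.mul_mem_right _ _ hr),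
        zero_smul]
  · intro a b ha hb
    rw [map_add, ha, hb, add_zero]

lemma pr_eq (f : R →ₗ[k] k) (hf : ∀ r ∈ maximalIdeal R ^ 2, f r = 0) (X : CT k R V)
    (x : R ⊗[k] V) (hx : lev 2 X = Submodule.Quotient.mk x) : pr f X = red f V x := by
  have h := (exists_lev 2 X).choose_spec.symm.trans hx
  rw [Submodule.Quotient.eq] at h
  have h2 := red_eq_zero f hf _ h
  rw [map_sub, sub_eq_zero] at h2
  exact h2

lemma pr_add (f : R →ₗ[k] k) (hf : ∀ r ∈ maximalIdeal R ^ 2, f r = 0) (X Y : CT k R V) :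
    pr f (X + Y) = pr f X + pr f Y := by
  obtain ⟨x, hx⟩ := exists_lev 2 X
  obtain ⟨y, hy⟩ := exists_lev 2 Y
  rw [pr_eq f hf X x hx, pr_eq f hf Y y hy, pr_eq f hf (X + Y) (x + y), map_add]
  rw [map_add, hx, hy]
  rfl

lemma pr_ι (f : R →ₗ[k] k) (hf : ∀ r ∈ maximalIdeal R ^ 2, f r = 0) (v : V) :
    pr f (ι k R v) = f 1 • v := by
  rw [pr_eq f hf _ ((1 : R) ⊗ₜ v) rfl, red_tmul]

/-- The data of the residue map `ρ`, a derivation `ℓ : R → k` over it, and `t` in the maximal
ideal with `ℓ t = 1`. -/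
structure Tangent (ρ ℓ : R →ₗ[k] k) (t : R) : Prop where
  ρ_one : ρ 1 = 1
  ρ_mul : ∀ r s, ρ (r * s) = ρ r * ρ s
  ρ_max : ∀ r ∈ maximalIdeal R, ρ r = 0
  ℓ_one : ℓ 1 = 0
  ℓ_mul : ∀ r s, ℓ (r * s) = ρ r * ℓ s + ℓ r * ρ s
  ℓ_sq : ∀ r ∈ maximalIdeal R ^ 2, ℓ r = 0
  t_mem : t ∈ maximalIdeal R
  ℓ_t : ℓ t = 1

namespace Tangent

variable {ρ ℓ : R →ₗ[k] k} {t : R} (T : Tangent ρ ℓ t)

include T

lemma ρ_sq : ∀ r ∈ maximalIdeal R ^ 2, ρ r = 0 := fun r hr =>
  T.ρ_max r (Ideal.pow_le_self two_ne_zero hr)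

lemma pr_smul_ρ (r : R) (X : CT k R V) : pr ρ (r • X) = ρ r • pr ρ X := by
  obtain ⟨x, hx⟩ := exists_lev 2 X
  rw [pr_eq ρ T.ρ_sq X x hx, pr_eq ρ T.ρ_sq (r • X) (r • x)]
  · induction x with
    | zero => simp
    | add a b ha hb =>
      have key : ∀ y : R ⊗[k] V, red ρ V (r • y) = ρ r • red ρ V y := by
        intro y
        induction y with
        | zero => simp
        | add a b ha hb => rw [smul_add, map_add, ha, hb, map_add, smul_add]
        | tmul s v =>
          rw [TensorProduct.smul_tmul', red_tmul, red_tmul, smul_eq_mul, T.ρ_mul, mul_smul]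
      exact key _
    | tmul s v =>
      rw [TensorProduct.smul_tmul', red_tmul, red_tmul, smul_eq_mul, T.ρ_mul, mul_smul]
  · rw [map_smul, hx]
    rfl

lemma pr_smul_ℓ (r : R) (X : CT k R V) : pr ℓ (r • X) = ρ r • pr ℓ X + ℓ r • pr ρ X := by
  obtain ⟨x, hx⟩ := exists_lev 2 X
  rw [pr_eq ρ T.ρ_sq X x hx, pr_eq ℓ T.ℓ_sq X x hx, pr_eq ℓ T.ℓ_sq (r • X) (r • x)]
  · have key : ∀ y : R ⊗[k] V, red ℓ V (r • y) = ρ r • red ℓ V y + ℓ r • red ρ V y := by
      intro y
      induction y with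
      | zero => simp
      | add a b ha hb =>
        rw [smul_add, map_add, ha, hb, map_add, map_add, smul_add, smul_add]
        abel
      | tmul s v =>
        rw [TensorProduct.smul_tmul', red_tmul, red_tmul, red_tmul, smul_eq_mul, T.ℓ_mul,
          add_smul, mul_smul, mul_smul]
    exact key _
  · rw [map_smul, hx]
    rfl

lemma pr_ρ_max (X : CT k R V) (hX : X ∈ maxPart k R V) :
    pr ρ X = 0 := by
  refine Submodule.smul_induction_on hX ?_ ?_
  · intro r hr Y _
    rw [T.pr_smul_ρ, T.ρ_max r hr, zero_smul]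
  · intro a b ha hb
    rw [pr_add ρ T.ρ_sq, ha, hb, add_zero]

lemma pr_ρ_congr {X Y : CT k R V} (h : X - Y ∈ maxPart k R V) :
    pr ρ X = pr ρ Y := by
  have h1 := T.pr_ρ_max _ h
  have h2 : X = (X - Y) + Y := by abel
  rw [h2, pr_add ρ T.ρ_sq, h1, zero_add]

omit T in
lemma pr_ct₁ (f : R →ₗ[k] k) (hf : ∀ r ∈ maximalIdeal R ^ 2, f r = 0) (g : V →ₗ[k] W)
    (X : CT k R V) : pr f (ct₁ R g X) = g (pr f X) := by
  obtain ⟨x, hx⟩ := exists_lev 2 X
  rw [pr_eq f hf X x hx, pr_eq f hf (ct₁ R g X) (g.baseChange R x)]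
  · have key : ∀ y : R ⊗[k] V, red f W (g.baseChange R y) = g (red f V y) := by
      intro y
      induction y with
      | zero => simp
      | add a b ha hb => rw [map_add, map_add, ha, hb, map_add, map_add]
      | tmul s v => rw [LinearMap.baseChange_tmul, red_tmul, red_tmul, map_smul]
    exact key _
  · exact lev_ct₁ 2 g X x hx

lemma pr_ct₂_ρ (g : V →ₗ[k] W →ₗ[k] U) (X : CT k R V) (Y : CT k R W) :
    pr ρ (xt₂ (bc₂ R g) X Y) = g (pr ρ X) (pr ρ Y) := by
  obtain ⟨x, hx⟩ := exists_lev 2 X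
  obtain ⟨y, hy⟩ := exists_lev 2 Y
  rw [pr_eq ρ T.ρ_sq X x hx, pr_eq ρ T.ρ_sq Y y hy, pr_eq ρ T.ρ_sq (xt₂ (bc₂ R g) X Y) (bc₂ R g x y)]
  · have key : ∀ (x : R ⊗[k] V) (y : R ⊗[k] W),
        red ρ U (bc₂ R g x y) = g (red ρ V x) (red ρ W y) := by
      intro x y
      induction x with
      | zero => simp
      | add a b ha hb =>
        rw [map_add, LinearMap.add_apply, map_add, ha, hb, map_add, map_add,
          LinearMap.add_apply]
      | tmul r v =>
        induction y with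
        | zero => simp
        | add a b ha hb => rw [map_add, map_add, ha, hb, map_add, map_add]
        | tmul s w =>
          rw [bc₂_tmul, red_tmul, red_tmul, red_tmul, T.ρ_mul, map_smul, map_smul,
            LinearMap.smul_apply, smul_smul, mul_comm]
    exact key _ _
  · exact lev_xt₂ 2 _ X Y x y hx hy

lemma pr_ct₂_ℓ (g : V →ₗ[k] W →ₗ[k] U) (X : CT k R V) (Y : CT k R W) :
    pr ℓ (xt₂ (bc₂ R g) X Y) = g (pr ρ X) (pr ℓ Y) + g (pr ℓ X) (pr ρ Y) := by
  obtain ⟨x, hx⟩ := exists_lev 2 X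
  obtain ⟨y, hy⟩ := exists_lev 2 Y
  rw [pr_eq ρ T.ρ_sq X x hx, pr_eq ρ T.ρ_sq Y y hy, pr_eq ℓ T.ℓ_sq X x hx,
    pr_eq ℓ T.ℓ_sq Y y hy, pr_eq ℓ T.ℓ_sq (xt₂ (bc₂ R g) X Y) (bc₂ R g x y)]
  · have key : ∀ (x : R ⊗[k] V) (y : R ⊗[k] W),
        red ℓ U (bc₂ R g x y) = g (red ρ V x) (red ℓ W y) + g (red ℓ V x) (red ρ W y) := by
      intro x y
      induction x with
      | zero => simp
      | add a b ha hb =>
        rw [map_add, LinearMap.add_apply, map_add, ha, hb, map_add, map_add, map_add, map_add,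
          LinearMap.add_apply, LinearMap.add_apply]
        abel
      | tmul r v =>
        induction y with
        | zero => simp
        | add a b ha hb =>
          rw [map_add, map_add, ha, hb, map_add, map_add, map_add, map_add]
          abel
        | tmul s w =>
          rw [bc₂_tmul]
          simp only [red_tmul, T.ℓ_mul, map_smul, LinearMap.smul_apply, smul_smul, add_smul]
          rw [mul_comm (ρ r) (ℓ s), mul_comm (ℓ r) (ρ s)]
    exact key _ _
  · exact lev_xt₂ 2 _ X Y x y hx hy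

lemma pr_udfMul {B : Type*} [Ring B] [Algebra k B] {A : Type*} [Ring A] [Algebra k A]
    [Module B A] [IsScalarTower k B A] (F : CT k R (B ⊗[k] B))
    (hF : F - ι k R 1 ∈ maxPart k R (B ⊗[k] B))
    (X Y : CT k R A) :
    pr ℓ (udfMul k R A F X Y) = pr ρ X * pr ℓ Y + pr ℓ X * pr ρ Y +
        LinearMap.mul' k A (act₂ k B A (pr ℓ F) (pr ρ X ⊗ₜ pr ρ Y)) := by
  have hρF : pr ρ F = 1 := by
    rw [T.pr_ρ_congr hF, pr_ι ρ T.ρ_sq, T.ρ_one, one_smul]
  have hact1 : ∀ x : A ⊗[k] A, act₂ k B A 1 x = x := by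
    intro x
    induction x with
    | zero => simp
    | add a b ha hb => rw [map_add, ha, hb]
    | tmul a b =>
      change ((1 : B) • a) ⊗ₜ[k] ((1 : B) • b) = _
      rw [one_smul, one_smul]
  change pr ℓ (ct₁ R (LinearMap.mul' k A) (xt₂ (bc₂ R (act₂ k B A)) F
      (xt₂ (bc₂ R (TensorProduct.mk k A A)) X Y))) = _
  rw [Tangent.pr_ct₁ ℓ T.ℓ_sq, T.pr_ct₂_ℓ, hρF, hact1, T.pr_ct₂_ℓ, T.pr_ct₂_ρ]
  simp only [map_add, TensorProduct.mk_apply, LinearMap.mul'_apply]

end Tangent

end FirstOrder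

section TangentExists

variable {k : Type*} [Field k] {R : Type*} [CommRing R] [Algebra k R] [IsLocalRing R]

lemma exists_tangent [IsNoetherianRing R]
    (hres : Function.Bijective (algebraMap k (ResidueField R))) (hR : maximalIdeal R ≠ ⊥) :
    ∃ (ρ ℓ : R →ₗ[k] k) (t : R), Tangent ρ ℓ t := by
  classical
  let e : k ≃ₐ[k] ResidueField R := AlgEquiv.ofBijective (Algebra.ofId k (ResidueField R)) hres
  let ρA : R →ₐ[k] k := e.symm.toAlgHom.comp (IsScalarTower.toAlgHom k R (ResidueField R))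
  have hρ : ∀ r, ρA r = 0 ↔ r ∈ maximalIdeal R := by
    intro r
    change e.symm (algebraMap R (ResidueField R) r) = 0 ↔ _
    rw [map_eq_zero_iff _ e.symm.injective]
    exact IsLocalRing.residue_eq_zero_iff r
  obtain ⟨t, ht, ht2⟩ : ∃ t ∈ maximalIdeal R, t ∉ maximalIdeal R ^ 2 := by
    by_contra hcon
    push Not at hcon
    apply hR
    apply Submodule.eq_bot_of_le_smul_of_le_jacobson_bot (maximalIdeal R) (maximalIdeal R)
      (IsNoetherian.noetherian _)
    · intro r hr
      have := hcon r hr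
      rwa [pow_two] at this
    · exact IsLocalRing.maximalIdeal_le_jacobson _
  let p : Submodule k R := (maximalIdeal R ^ 2 : Ideal R).restrictScalars k ⊔ Submodule.span k {1}
  have htp : t ∉ p := by
    intro h
    rw [Submodule.mem_sup] at h
    obtain ⟨y, hy, z, hz, hyz⟩ := h
    rw [Submodule.mem_span_singleton] at hz
    obtain ⟨c, rfl⟩ := hz
    have hy' : y ∈ maximalIdeal R ^ 2 := hy
    have hy1 : y ∈ maximalIdeal R := Ideal.pow_le_self two_ne_zero hy'
    have h1 : ρA t = 0 := (hρ t).2 ht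
    rw [← hyz, map_add, (hρ y).2 hy1, map_smul, map_one, zero_add, smul_eq_mul, mul_one] at h1
    rw [h1, zero_smul, add_zero] at hyz
    exact ht2 (hyz ▸ hy')
  obtain ⟨f, hf1, hf2⟩ := Submodule.exists_dual_map_eq_bot_of_notMem htp inferInstance
  have hfp : ∀ r ∈ p, f r = 0 := by
    intro r hr
    have : f r ∈ p.map f := Submodule.mem_map_of_mem hr
    rw [hf2] at this
    exact (Submodule.mem_bot k).1 this
  let ℓ : R →ₗ[k] k := (f t)⁻¹ • f
  have hℓ1 : ℓ 1 = 0 := by
    change (f t)⁻¹ • f 1 = 0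
    rw [hfp 1 (Submodule.mem_sup_right (Submodule.mem_span_singleton_self 1)), smul_zero]
  have hℓ2 : ∀ r ∈ maximalIdeal R ^ 2, ℓ r = 0 := by
    intro r hr
    change (f t)⁻¹ • f r = 0
    rw [hfp r (Submodule.mem_sup_left hr), smul_zero]
  have hdec : ∀ r : R, ∃ r' ∈ maximalIdeal R, r = ρA r • (1 : R) + r' := by
    intro r
    refine ⟨r - ρA r • 1, ?_, by abel⟩
    rw [← hρ, map_sub, map_smul, map_one, smul_eq_mul, mul_one, sub_self]
  refine ⟨ρA.toLinearMap, ℓ, t, ⟨map_one ρA, map_mul ρA, fun r hr => (hρ r).2 hr, hℓ1, ?_, hℓ2,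
    ht, ?_⟩⟩
  · intro r s
    change ℓ (r * s) = ρA r * ℓ s + ℓ r * ρA s
    obtain ⟨r', hr', hr⟩ := hdec r
    obtain ⟨s', hs', hs⟩ := hdec s
    have h1 : r * s = (ρA r * ρA s) • (1 : R) + ρA r • s' + ρA s • r' + r' * s' := by
      have h0 : ∀ a b : k, (a • (1 : R) + r') * (b • (1 : R) + s') =
          (a * b) • (1 : R) + a • s' + b • r' + r' * s' := by
        intro a b
        simp only [Algebra.smul_def, map_mul, mul_one]
        ring
      rw [← h0, ← hr, ← hs]
    have h2 : ℓ s = ℓ s' := by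
      conv_lhs => rw [hs]
      rw [map_add, map_smul, hℓ1, smul_zero, zero_add]
    have h3 : ℓ r = ℓ r' := by
      conv_lhs => rw [hr]
      rw [map_add, map_smul, hℓ1, smul_zero, zero_add]
    have h4 : ℓ (r' * s') = 0 := hℓ2 _ (by rw [pow_two]; exact Ideal.mul_mem_mul hr' hs')
    rw [h1, map_add, map_add, map_add, map_smul, map_smul, map_smul, hℓ1, h4, h2, h3]
    simp only [smul_eq_mul]
    ring
  · change (f t)⁻¹ • f t = 1
    rw [smul_eq_mul, inv_mul_cancel₀ hf1]

end TangentExists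

section Ext

variable {R : Type*} [CommRing R] {M N P : Type*} [AddCommGroup M] [Module R M]
  [AddCommGroup N] [Module R N] [AddCommGroup P] [Module R P]

lemma ext₂_assoc (I : Ideal R) (f : M →ₗ[R] M →ₗ[R] M)
    (hf : ∀ x y z, f (f x y) z = f x (f y z)) (x y z : AdicCompletion I M) :
    ext₂ I f (ext₂ I f x y) z = ext₂ I f x (ext₂ I f y z) := by
  ext n
  simp only [ext₂_val]
  generalize x.val n = a
  generalize y.val n = b
  generalize z.val n = c
  obtain ⟨a, rfl⟩ := Submodule.Quotient.mk_surjective _ a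
  obtain ⟨b, rfl⟩ := Submodule.Quotient.mk_surjective _ b
  obtain ⟨c, rfl⟩ := Submodule.Quotient.mk_surjective _ c
  simp only [level₂_mk, hf]

lemma ext₂_one_left (I : Ideal R) (f : M →ₗ[R] M →ₗ[R] M) (e : M)
    (hf : ∀ x, f e x = x) (x : AdicCompletion I M) :
    ext₂ I f (AdicCompletion.of I M e) x = x := by
  ext n
  simp only [ext₂_val]
  generalize x.val n = a
  obtain ⟨a, rfl⟩ := Submodule.Quotient.mk_surjective _ a
  change Submodule.Quotient.mk (f e a) = _
  rw [hf]

lemma ext₂_one_right (I : Ideal R) (f : M →ₗ[R] M →ₗ[R] M) (e : M)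
    (hf : ∀ x, f x e = x) (x : AdicCompletion I M) :
    ext₂ I f x (AdicCompletion.of I M e) = x := by
  ext n
  simp only [ext₂_val]
  generalize x.val n = a
  obtain ⟨a, rfl⟩ := Submodule.Quotient.mk_surjective _ a
  change Submodule.Quotient.mk (f a e) = _
  rw [hf]

lemma ext₂_add_smul (I : Ideal R) (f g : M →ₗ[R] N →ₗ[R] P) (t : R)
    (x : AdicCompletion I M) (y : AdicCompletion I N) :
    ext₂ I (f + t • g) x y = ext₂ I f x y + t • ext₂ I g x y := by
  ext n
  rw [AdicCompletion.val_add_apply, AdicCompletion.val_smul_apply]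
  simp only [ext₂_val]
  generalize x.val n = a
  generalize y.val n = b
  obtain ⟨a, rfl⟩ := Submodule.Quotient.mk_surjective _ a
  obtain ⟨b, rfl⟩ := Submodule.Quotient.mk_surjective _ b
  rfl

end Ext

end Pool.Agent.Lib.MP_8ccf7f_al
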